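import Pool.Agent.L0h29.AL.ArtDefs5
import Pool.Agent.L0h55.AL.Big
import Pool.Agent.L0h68.AL.Cpt

/-!
# Module FCA of project AL4: bounded areas
-/

set_option autoImplicit false

namespace Pool.Agent.L0h81.AL

open Pool.Agent.K7.H20.AW Pool.Agent.K7.H87.FJ6 Pool.Agent.L0h29.AL Pool.Agent.L0h55.AL

section free

variable {B : Type*}

theorem inw_cons (p : B × Bool) (u : List (B × Bool)) : inw (p :: u) = inw u ++ [(p.1, !p.2)] := by
  simp [inw]

theorem mk_append (u v : List (B × Bool)) :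
    FreeGroup.mk (u ++ v) = FreeGroup.mk u * FreeGroup.mk v := FreeGroup.mul_mk.symm

theorem mk_inw (u : List (B × Bool)) : FreeGroup.mk (inw u) = (FreeGroup.mk u)⁻¹ := by
  rw [FreeGroup.inv_mk]
  rfl

theorem map_inw {A : Type*} (f : A → B) (u : List (A × Bool)) :
    inw (u.map (Prod.map f id)) = (inw u).map (Prod.map f id) := by
  simp only [inw, List.map_map, List.map_reverse]
  rfl

theorem map_aw {A : Type*} (f : A → B) (m : ℕ) : ∀ i j : A,
    aw m (f i) (f j) = (aw m i j).map (Prod.map f id) := by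
  induction m with
  | zero => intro i j; rfl
  | succ m ih => intro i j; rw [aw, aw, ih]; rfl

theorem map_rw' {A : Type*} (f : A → B) (m : ℕ) (i j : A) (b : Bool) :
    rw' m (f i) (f j) b = (rw' m i j b).map (Prod.map f id) := by
  unfold rw'
  split_ifs <;> rw [List.map_append, map_aw, map_aw, map_inw]

theorem map_exw {A : Type*} (f : A → B) (lab : B → B → ℕ)
    (c : List (List (A × Bool) × A × A × Bool)) :
    exw lab (c.map fun p => (p.1.map (Prod.map f id), f p.2.1, f p.2.2.1, p.2.2.2)) =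
      (exw (fun i j => lab (f i) (f j)) c).map (Prod.map f id) := by
  induction c with
  | nil => rfl
  | cons p c ih =>
    rw [List.map_cons, exw_cons, exw_cons, ih, List.map_append, List.map_append, List.map_append,
      ← map_rw', ← map_inw]

end free

section sub

variable {A B : Type*} (M : CoxeterMatrix B) (ι : A → B) (hι : Function.Injective ι)

theorem inc_lval (w : List (A × Bool)) :
    inc M (z0 B) ι hι (lval (pull M ι hι) w) = lval M (w.map (Prod.map ι id)) := by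
  induction w with
  | nil => rw [lval_nil, List.map_nil, lval_nil]; exact map_one _
  | cons p w ih =>
    rw [lval_cons, List.map_cons, lval_cons]
    have h := map_mul (inc M (z0 B) ι hι)
      (if p.2 then g (pull M ι hι) p.1 else (g (pull M ι hι) p.1)⁻¹) (lval (pull M ι hι) w)
    refine h.trans ?_
    rw [ih]
    congr 1
    rcases p with ⟨a, e⟩
    cases e
    · exact (map_inv (inc M (z0 B) ι hι) (Sh.gen _ _ a)).trans
        (congrArg Inv.inv (inc_gen M (z0 B) ι hι a))
    · exact inc_gen M (z0 B) ι hι a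

/-- areas do not increase under inclusions -/
theorem area_map {w : List (A × Bool)} {N : ℕ} (h : Area (pull M ι hι) w N) :
    Area M (w.map (Prod.map ι id)) N := by
  obtain ⟨c, h1, h2, h3⟩ := h
  refine ⟨c.map fun p => (p.1.map (Prod.map ι id), ι p.2.1, ι p.2.2.1, p.2.2.2), ?_, ?_, ?_⟩
  · rw [List.length_map]; exact h1
  · intro p hp
    rw [List.mem_map] at hp
    obtain ⟨q, hq, rfl⟩ := hp
    simpa using h2 q hq
  · rw [map_exw]
    have h4 := congrArg (FreeGroup.map ι) h3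
    rw [FreeGroup.map.mk, FreeGroup.map.mk] at h4
    exact h4

theorem exists_lift (X : Finset B) (w : List (B × Bool)) (hw : ∀ a ∈ w, a.1 ∈ X) :
    ∃ w' : List ({i // i ∈ X} × Bool), w'.map (Prod.map Subtype.val id) = w := by
  induction w with
  | nil => exact ⟨[], rfl⟩
  | cons p w ih =>
    obtain ⟨w', h⟩ := ih (fun a ha => hw a (List.mem_cons_of_mem _ ha))
    refine ⟨(⟨p.1, hw p List.mem_cons_self⟩, p.2) :: w', ?_⟩
    rw [List.map_cons, h]
    rfl

end sub

/-- the bound of SPA for the subset `X` -/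
theorem spa_sub (hSPA : S_SPA.{0}) {n : ℕ} (M : CoxeterMatrix (Fin n)) (hM : FCs M)
    (X : Finset (Fin n)) : ∃ K : ℕ, (∀ i ∈ X, ∀ j ∈ X, i ≠ j → M i j ≠ 0 ∧ M i j < 100) →
      ∀ w : List (Fin n × Bool), (∀ a ∈ w, a.1 ∈ X) → lval M w = 1 →
        Area M w (K ^ (K * (w.length + 1))) := by
  by_cases hX : ∀ i ∈ X, ∀ j ∈ X, i ≠ j → M i j ≠ 0 ∧ M i j < 100
  · obtain ⟨K, hK⟩ := hSPA {i // i ∈ X}
      (pull M (Subtype.val : {i // i ∈ X} → Fin n) Subtype.val_injective) (hM X hX)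
    refine ⟨K, fun _ w hw h1 => ?_⟩
    obtain ⟨w', rfl⟩ := exists_lift X w hw
    have h2 : lval (pull M (Subtype.val : {i // i ∈ X} → Fin n) Subtype.val_injective) w' = 1 := by
      apply inc_injective (adm0 M) Subtype.val Subtype.val_injective
      refine (inc_lval M Subtype.val Subtype.val_injective w').trans ?_
      rw [h1]
      exact (map_one _).symm
    have h3 := hK w' h2
    rw [List.length_map]
    exact area_map M Subtype.val Subtype.val_injective h3
  · exact ⟨0, fun h => absurd h hX⟩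

/-- one bound for all subsets -/
theorem spa_all (hSPA : S_SPA.{0}) (hARE : S_ARE.{0}) {n : ℕ} (M : CoxeterMatrix (Fin n))
    (hM : FCs M) : ∃ K : ℕ, 1 ≤ K ∧ ∀ X : Finset (Fin n),
      (∀ i ∈ X, ∀ j ∈ X, i ≠ j → M i j ≠ 0 ∧ M i j < 100) →
      ∀ w : List (Fin n × Bool), (∀ a ∈ w, a.1 ∈ X) → lval M w = 1 → ∀ G : ℕ, w.length ≤ G →
        Area M w (K ^ (K * (G + 1))) := by
  choose K hK using spa_sub hSPA M hM
  refine ⟨(∑ X : Finset (Fin n), K X) + 1, Nat.le_add_left _ _, ?_⟩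
  intro X hX w hw h1 G hG
  refine (hARE (Fin n) M).2.1 w _ _ ?_ (hK X hX w hw h1)
  have h2 : K X ≤ ∑ X : Finset (Fin n), K X :=
    Finset.single_le_sum (f := K) (fun _ _ => Nat.zero_le _) (Finset.mem_univ X)
  set T := (∑ X : Finset (Fin n), K X) + 1 with hT
  have h3 : K X ≤ T := h2.trans (Nat.le_succ _)
  calc K X ^ (K X * (w.length + 1)) ≤ T ^ (K X * (w.length + 1)) := Nat.pow_le_pow_left h3 _
    _ ≤ T ^ (T * (G + 1)) :=
      Nat.pow_le_pow_right (Nat.le_add_left _ _) (Nat.mul_le_mul h3 (by omega))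

/-- the product of conjugates -/
theorem area_prod (hARE : S_ARE.{0}) {n : ℕ} (M : CoxeterMatrix (Fin n)) (G A : ℕ) :
    ∀ c : List (List (Fin n × Bool) × List (Fin n × Bool) × Finset (Fin n)),
      (∀ p ∈ c, p.1.length ≤ G ∧ Area M p.2.1 A) →
      Area M (c.flatMap fun p => p.1 ++ p.2.1 ++ inw p.1) (c.length * (A + G)) := by
  intro c
  induction c with
  | nil =>
    intro _
    exact ⟨[], by simp, by simp, by simp [exw]⟩
  | cons p c ih =>
    intro h
    have h1 := ih (fun q hq => h q (List.mem_cons_of_mem _ hq))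
    obtain ⟨h2, h3⟩ := h p List.mem_cons_self
    have h4 := (hARE (Fin n) M).2.2.2.2.2.1 p.1 p.2.1 A h3
    have h5 := (hARE (Fin n) M).2.2.2.1 _ _ _ _ h4 h1
    rw [List.flatMap_cons]
    refine (hARE (Fin n) M).2.1 _ _ _ ?_ h5
    rw [List.length_cons, Nat.succ_mul]
    omega

theorem mk_flatMap {B : Type*} (c : List (List (B × Bool) × List (B × Bool) × Finset B)) :
    FreeGroup.mk (c.flatMap fun p => p.1 ++ p.2.1 ++ inw p.1) =
      (c.map fun p => FreeGroup.mk p.1 * FreeGroup.mk p.2.1 * (FreeGroup.mk p.1)⁻¹).prod := by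
  induction c with
  | nil => rfl
  | cons p c ih =>
    rw [List.flatMap_cons, mk_append, ih, List.map_cons, List.prod_cons, mk_append, mk_append,
      mk_inw]

theorem ga_mono {k n k' n' : ℕ} (hk : k ≤ k') (hn : n ≤ n') : ga k n ≤ ga k' n' := by
  unfold ga
  have h1 : 2 ^ (k + 1) * (n + 2) ≤ 2 ^ (k' + 1) * (n' + 2) :=
    Nat.mul_le_mul (Nat.pow_le_pow_right (by norm_num) (by omega)) (by omega)
  calc (2 ^ (k + 1) * (n + 2)) ^ (k + 2) ≤ (2 ^ (k' + 1) * (n' + 2)) ^ (k + 2) :=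
        Nat.pow_le_pow_left h1 _
    _ ≤ (2 ^ (k' + 1) * (n' + 2)) ^ (k' + 2) :=
        Nat.pow_le_pow_right (Nat.mul_pos (pow_pos (by norm_num) _) (by omega)) (by omega)

/-- the bound -/
def tta (K N : ℕ) : ℕ :=
  ga (n1 N) (n1 N) * (K ^ (K * (ga (n1 N) (n1 N) + 1)) + ga (n1 N) (n1 N)) + ps N

theorem pr_tta (K C : ℕ) : Primrec fun m : ℕ => tta K (m + C) := by
  have h0 : Primrec fun m : ℕ => m + C := Primrec.nat_add.comp Primrec.id (Primrec.const C)
  have hn : Primrec fun m : ℕ => n1 (m + C) := Pool.Agent.L0h68.AL.pr_n1.comp h0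
  have hg : Primrec fun m : ℕ => ga (n1 (m + C)) (n1 (m + C)) :=
    Pool.Agent.L0h68.AL.pr_ga.comp hn hn
  have hp : Primrec fun m : ℕ => ps (m + C) := (show Primrec ps from cps).comp h0
  have h1 : Primrec fun m : ℕ => K * (ga (n1 (m + C)) (n1 (m + C)) + 1) :=
    Primrec.nat_mul.comp (Primrec.const K) (Primrec.succ.comp hg)
  have h2 : Primrec fun m : ℕ => K ^ (K * (ga (n1 (m + C)) (n1 (m + C)) + 1)) :=
    pr_pow.comp (Primrec.const K) h1
  exact Primrec.nat_add.comp (Primrec.nat_mul.comp hg (Primrec.nat_add.comp h2 hg)) hp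

/-- **FCA** -/
theorem fca (hBIG : S_BIG) (hGPA : S_GPA.{0}) (hSPA : S_SPA.{0}) (hARE : S_ARE.{0}) : S_FCA := by
  intro n M hM
  obtain ⟨K, hK1, hK⟩ := spa_all hSPA hARE M hM
  set C : ℕ := n + ∑ i : Fin n, ∑ j : Fin n, M i j with hC
  refine ⟨fun m => tta K (m + C), pr_tta K C, ?_⟩
  intro w hw
  set N := w.length + C with hN
  have hMN : ∀ i j, M i j ≤ N := by
    intro i j
    have h1 : M i j ≤ ∑ j : Fin n, M i j :=
      Finset.single_le_sum (f := fun j => M i j) (fun _ _ => Nat.zero_le _) (Finset.mem_univ j)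
    have h2 : ∑ j : Fin n, M i j ≤ ∑ i : Fin n, ∑ j : Fin n, M i j :=
      Finset.single_le_sum (f := fun i => ∑ j : Fin n, M i j) (fun _ _ => Nat.zero_le _)
        (Finset.mem_univ i)
    omega
  obtain ⟨c1, h1, h2, h3⟩ := (hBIG n M w N (by omega) (by omega) hMN).1 hw
  set w1 := w ++ exw (fun i j => M i j) c1 with hw1
  have hlen : w1.length ≤ n1 N := by
    rw [hw1, List.length_append]
    have h4 := length_exw (fun i j => M i j) N (ps N) hMN c1 h2
    have h5 : c1.length * (2 * ps N + 2 * N) ≤ ps N * (2 * ps N + 2 * N) :=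
      Nat.mul_le_mul_right _ h1
    unfold n1
    omega
  have hnn : n ≤ n1 N := by unfold n1; omega
  obtain ⟨c2, h4, h5, h6⟩ := hGPA (Fin n) (tr M) w1 h3
  set G := ga (n1 N) (n1 N) with hG
  have hga : ga (Fintype.card (Fin n)) w1.length ≤ G := by
    rw [Fintype.card_fin]
    exact ga_mono hnn hlen
  -- the pieces
  have hpc : ∀ p ∈ c2, p.1.length ≤ G ∧ Area M p.2.1 (K ^ (K * (G + 1))) := by
    intro p hp
    obtain ⟨q1, q2, q3, q4, q5⟩ := h5 p hp
    refine ⟨q1.trans hga, hK p.2.2 ?_ p.2.1 q4 ?_ G (q2.trans hga)⟩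
    · intro i hi j hj hij
      have h7 := q3 i hi j hj
      rw [tr_apply, if_neg hij] at h7
      split_ifs at h7 with h8
      · exact absurd rfl h7
      · exact ⟨h7, not_le.1 h8⟩
    · have h7 := congrArg (tq M) q5
      rw [tq_lval, map_one] at h7
      exact h7
  have hw1a := area_prod hARE M G (K ^ (K * (G + 1))) c2 hpc
  have hw1b : Area M w1 (c2.length * (K ^ (K * (G + 1)) + G)) :=
    (hARE (Fin n) M).2.2.1 _ _ _ (by rw [mk_flatMap, ← h6]) hw1a
  have hc1 : Area M (exw (fun i j => M i j) c1) (ps N) := ⟨c1, h1, h2, rfl⟩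
  have hc1' := (hARE (Fin n) M).2.2.2.2.1 _ _ hc1
  have hfin := (hARE (Fin n) M).2.2.2.1 _ _ _ _ hw1b hc1'
  have hfin2 : Area M w (c2.length * (K ^ (K * (G + 1)) + G) + ps N) := by
    refine (hARE (Fin n) M).2.2.1 _ _ _ ?_ hfin
    rw [mk_append, mk_inw, hw1, mk_append, mul_inv_cancel_right]
  refine (hARE (Fin n) M).2.1 _ _ _ ?_ hfin2
  have h8 : c2.length * (K ^ (K * (G + 1)) + G) ≤ G * (K ^ (K * (G + 1)) + G) :=
    Nat.mul_le_mul_right _ (h4.trans hga)
  change _ ≤ tta K N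
  unfold tta
  rw [← hG]
  omega

end Pool.Agent.L0h81.AL
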